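import Pool.Agent.Helper56.SA.Tow

/-! Statements of packages for the result on `MP_c82530_nt`. -/

namespace Pool.Agent.Helper35.GF

open Set Module Pool.Agent.Helper35.EM Pool.Agent.Helper56.SA

/-- Package AI. Rank and algebraic independence over a finitely generated field: `S` finite, `g` a family
of `r` numbers, `rk S + r ≤ rk (S ∪ range g)`. (A basis `I ⊆ S` of the matroid; `I ∪ range g` is
independent with `|I| + r` elements; `AlgebraicIndependent.sumElim_iff`; algebraic extension
`AlgebraicIndependent.extendScalars`.) -/
def S_AlgInd : Prop := ∀ (S : Set ℂ), S.Finite → ∀ (r : ℕ) (g : Fin r → ℂ),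
  M.eRk S + (r : ℕ∞) ≤ M.eRk (S ∪ range g) →
  AlgebraicIndependent (IntermediateField.adjoin ℚ S) g

/-- Package FS. A free sequence whose first terms generate a given finite set up to algebraic closure.
(A basis `I` of the finite set `A`, extended to a transcendence basis `B` of `ℂ`, which is infinite as in
`Pool.Agent.Helper35.EM.exists_free`; an injective sequence in `B` which begins with an enumeration of `I`;
`Matroid.Indep.notMem_closure_sdiff_of_mem`.) -/
def S_Free : Prop := ∀ A : Set ℂ, A.Finite → ∃ (t : ℕ → ℂ) (N : ℕ), Free t ∧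
  A ⊆ M.closure (t '' Iio N)

/-- Package MU. Algebraically independent numbers are multiplicatively independent modulo the algebraic
numbers; and the multiplicative rank: a subspace of `ℚ^n` of dimension `d` gives rank at least `d`.
(`exp_coef` and `cl_exp_of_smul_add` in EM; second part: complement `C` of `U` in `ℚ^n`; the rank of all
`x i` is `n`, and the elements of a basis of `C` add at most `dim C`.) -/
def S_Mult : Prop := ∀ (n : ℕ) (x z : Fin n → ℂ), AlgebraicIndependent ℚ x →
  (∀ i, Complex.exp (z i) = x i) →
  (∀ a : Fin n → ℚ, Complex.exp (∑ i, (a i : ℂ) * z i) ∈ M.closure ∅ → a = 0) ∧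
  ∀ U : Submodule ℚ (Fin n → ℚ), (finrank ℚ U : ℕ∞) ≤
    M.eRk {c | ∃ a ∈ U, c = Complex.exp (∑ i, (a i : ℂ) * z i)}

end Pool.Agent.Helper35.GF
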