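import Pool.Agent.Helper35.GF.Fld
import Pool.Agent.Helper35.GF.Stm

/-! The base of a point. -/

set_option autoImplicit false

namespace Pool.Agent.Helper35.GF

open Pool.Agent.Helper35.EM Pool.Agent.Helper56.EM Pool.Agent.Helper56.SA Module Submodule Set

variable {n m : ℕ}

/-- the pairs of a point -/
def pr (α z : Fin n → ℂ) (l b : Fin m → ℂ) : Fin n ⊕ Fin m → ℂ × ℂ :=
  Sum.elim (fun i => (α i, z i)) fun j => (l j, b j)

/-- the space of pairs of a point -/
noncomputable def PB (α z : Fin n → ℂ) (l b : Fin m → ℂ) : Submodule ℚ (ℂ × ℂ) := span ℚ (range (pr α z l b))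

theorem mem_PB {α z : Fin n → ℂ} {l b : Fin m → ℂ} {q : ℂ × ℂ} (hq : q ∈ PB α z l b) :
    ∃ (a : Fin n → ℚ) (c : Fin m → ℚ),
      q = ∑ i, a i • (α i, z i) + ∑ j, c j • (l j, b j) ∧
      q.1 = ∑ i, (a i : ℂ) * α i + ∑ j, (c j : ℂ) * l j ∧
      q.2 = ∑ i, (a i : ℂ) * z i + ∑ j, (c j : ℂ) * b j := by
  obtain ⟨c, hc⟩ := (Submodule.mem_span_range_iff_exists_fun ℚ).1 hq
  have h0 : q = ∑ i, c (Sum.inl i) • (α i, z i) + ∑ j, c (Sum.inr j) • (l j, b j) := by
    rw [← hc, Fintype.sum_sum_type]; rfl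
  refine ⟨fun i => c (Sum.inl i), fun j => c (Sum.inr j), h0, ?_, ?_⟩
  · rw [h0]
    simp only [Prod.fst_add, Prod.fst_sum, Prod.smul_fst, Rat.smul_def]
  · rw [h0]
    simp only [Prod.snd_add, Prod.snd_sum, Prod.smul_snd, Rat.smul_def]

theorem inl_mem (α z : Fin n → ℂ) (l b : Fin m → ℂ) (i : Fin n) : (α i, z i) ∈ PB α z l b :=
  subset_span ⟨Sum.inl i, rfl⟩

theorem inr_mem (α z : Fin n → ℂ) (l b : Fin m → ℂ) (j : Fin m) : (l j, b j) ∈ PB α z l b :=
  subset_span ⟨Sum.inr j, rfl⟩

/-- a point for algebraic exponents and logarithms of algebraic numbers -/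
structure Data (α z x : Fin n → ℂ) (l b : Fin m → ℂ) : Prop where
  αa : ∀ i, α i ∈ M.closure ∅
  αi : LinearIndependent ℚ α
  zx : ∀ i, Complex.exp (z i) = x i
  xi : AlgebraicIndependent ℚ x
  ba : ∀ j, Complex.exp (b j) ∈ M.closure ∅
  bi : LinearIndependent ℚ b
  li : IndepWithOne l

section

variable {α z x : Fin n → ℂ} {l b : Fin m → ℂ}

theorem cl_sum_rat {s : Set ℂ} {k : ℕ} (a : Fin k → ℚ) (u : Fin k → ℂ)
    (h : ∀ i, u i ∈ M.closure s) : ∑ i, (a i : ℂ) * u i ∈ M.closure s :=
  cl_sum _ _ fun i _ => cl_mul (cl_ratCast _ _) (h i)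

theorem cl_exp_sum {s : Set ℂ} {k : ℕ} (a : Fin k → ℚ) (u : Fin k → ℂ)
    (h : ∀ i, Complex.exp (u i) ∈ M.closure s) :
    Complex.exp (∑ i, (a i : ℂ) * u i) ∈ M.closure s := by
  classical
  induction (Finset.univ : Finset (Fin k)) using Finset.induction_on with
  | empty => rw [Finset.sum_empty, Complex.exp_zero]; exact cl_one _
  | insert i A hi ih =>
    rw [Finset.sum_insert hi]
    refine cl_exp_add ?_ ih
    have := cl_exp_smul (a i) (h i)
    rwa [Rat.smul_def] at this

theorem Data.c0 (h : Data α z x l b) {q : ℂ × ℂ} (hq1 : q.1 ∈ M.closure ∅) {a : Fin n → ℚ}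
    {c : Fin m → ℚ} (e : q.1 = ∑ i, (a i : ℂ) * α i + ∑ j, (c j : ℂ) * l j) : c = 0 := by
  have h1 := h.li (∑ i, (a i : ℂ) * α i - q.1) (fun j => (c j : ℂ))
    (mem_cl_empty.1 (cl_sub (cl_sum_rat a α h.αa) hq1))
    (fun j => mem_cl_empty.1 (cl_ratCast _ _)) (by rw [e]; ring)
  funext j
  exact_mod_cast h1.2 j

theorem Data.a0 (hMU : S_Mult) (h : Data α z x l b) {q : ℂ × ℂ}
    (hq2 : Complex.exp q.2 ∈ M.closure ∅) {a : Fin n → ℚ}
    {c : Fin m → ℚ} (e : q.2 = ∑ i, (a i : ℂ) * z i + ∑ j, (c j : ℂ) * b j) : a = 0 := by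
  apply (hMU n x z h.xi h.zx).1
  rw [e, Complex.exp_add] at hq2
  have := cl_div hq2 (cl_exp_sum c b h.ba)
  rwa [mul_div_cancel_right₀ _ (Complex.exp_ne_zero _)] at this

theorem Data.st (hMU : S_Mult) (h : Data α z x l b) {F : Set ℂ}
    (hx : ∀ i, x i ∈ M.closure F) (hl : ∀ j, l j ∈ M.closure F) : St (PB α z l b) F := by
  refine ⟨FiniteDimensional.span_of_finite ℚ (finite_range _), ?_, ?_, ?_, ?_⟩
  · intro q hq
    obtain ⟨a, c, -, h1, -⟩ := mem_PB hq
    rw [h1]
    exact cl_add (cl_sum_rat a α fun i => cl_empty_le (h.αa i)) (cl_sum_rat c l hl)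
  · intro q hq
    obtain ⟨a, c, -, -, h2⟩ := mem_PB hq
    rw [h2]
    exact cl_exp_add (cl_exp_sum a z fun i => by rw [h.zx]; exact hx i)
      (cl_exp_sum c b fun j => cl_empty_le (h.ba j))
  · intro q hq h0
    obtain ⟨a, c, e, h1, -⟩ := mem_PB hq
    have hc := h.c0 (by rw [h0]; exact cl_zero _) h1
    have h3 : ∑ i, a i • α i = 0 := by
      rw [h0, hc] at h1
      simp only [Pi.zero_apply, Rat.cast_zero, zero_mul, Finset.sum_const_zero, add_zero] at h1
      rw [h1]
      exact Finset.sum_congr rfl fun i _ => by rw [Rat.smul_def]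
    have ha : a = 0 := funext fun i => Fintype.linearIndependent_iff.1 h.αi a h3 i
    rw [e, ha, hc]
    simp
  · intro q hq h0
    obtain ⟨a, c, e, -, h2⟩ := mem_PB hq
    have ha := h.a0 hMU (by rw [h0, Complex.exp_zero]; exact cl_one _) h2
    have h3 : ∑ j, c j • b j = 0 := by
      rw [h0, ha] at h2
      simp only [Pi.zero_apply, Rat.cast_zero, zero_mul, Finset.sum_const_zero, zero_add] at h2
      rw [h2]
      exact Finset.sum_congr rfl fun i _ => by rw [Rat.smul_def]
    have hc : c = 0 := funext fun i => Fintype.linearIndependent_iff.1 h.bi c h3 i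
    rw [e, ha, hc]
    simp

/-- the linear forms of the point -/
noncomputable def WL (l : Fin m → ℂ) : Submodule kk ℂ := span kk (insert 1 (range l))

theorem rat_mem {W : Submodule kk ℂ} {v : ℂ} (q : ℚ) (hv : v ∈ W) : q • v ∈ W := by
  have : q • v = (⟨(q : ℂ), kk_mem.2 (cl_ratCast _ q)⟩ : kk) • v := by
    rw [Rat.smul_def, Algebra.smul_def]; rfl
  rw [this]
  exact Submodule.smul_mem _ _ hv

theorem Data.gb (hMU : S_Mult) (h : Data α z x l b) :
    GB (PB α z l b) (span ℚ (range l)) (WL l) := by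
  have hlco : ∀ j, l j ∈ M.closure (co (PB α z l b)) := fun j =>
    cl_self ⟨_, inr_mem α z l b j, Or.inl rfl⟩
  refine ⟨?_, ?_, ?_, ?_, ?_, ?_, subset_span (mem_insert _ _)⟩
  · intro U hU hUa
    let T : (Fin n → ℚ) →ₗ[ℚ] ℂ × ℂ := Fintype.linearCombination ℚ fun i => (α i, z i)
    have hT : ∀ a, T a = ∑ i, a i • (α i, z i) := fun a => rfl
    have hTi : Function.Injective T := by
      rw [← LinearMap.ker_eq_bot, LinearMap.ker_eq_bot']
      intro a ha
      rw [hT] at ha
      have h1 := congrArg Prod.fst ha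
      simp only [Prod.fst_sum, Prod.smul_fst, Prod.fst_zero] at h1
      exact funext fun i => Fintype.linearIndependent_iff.1 h.αi a h1 i
    have hUT : U ≤ LinearMap.range T := by
      intro q hq
      obtain ⟨a, c, e, h1, -⟩ := mem_PB (hU hq)
      have hc := h.c0 (hUa q hq) h1
      refine ⟨a, ?_⟩
      rw [hT, e, hc]
      simp
    have e1 : (U.comap T).map T = U := by
      rw [Submodule.map_comap_eq, inf_eq_right.2 hUT]
    have e2 : finrank ℚ (U.comap T) = finrank ℚ U := by
      have := LinearEquiv.finrank_eq (Submodule.equivMapOfInjective T hTi (U.comap T))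
      rw [this, e1]
    rw [← e2]
    refine ((hMU n x z h.xi h.zx).2 (U.comap T)).trans (M.eRk_mono ?_)
    rintro _ ⟨a, ha, rfl⟩
    refine ⟨T a, ha, Or.inr ?_⟩
    rw [hT]
    simp only [Prod.snd_sum, Prod.smul_snd, Rat.smul_def]
  · intro q hq hq2
    obtain ⟨a, c, -, h1, h2⟩ := mem_PB hq
    have ha := h.a0 hMU hq2 h2
    rw [h1, ha]
    simp only [Pi.zero_apply, Rat.cast_zero, zero_mul, Finset.sum_const_zero, zero_add]
    refine Submodule.sum_mem _ fun j _ => ?_
    rw [← Rat.smul_def]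
    exact Submodule.smul_mem _ _ (subset_span ⟨j, rfl⟩)
  · intro v hv
    induction hv using Submodule.span_induction with
    | mem v hv => obtain ⟨j, rfl⟩ := hv; exact hlco j
    | zero => exact cl_zero _
    | add v w _ _ hv hw => exact cl_add hv hw
    | smul q v _ hv => exact cl_smul q hv
  · refine BK.base l fun c₀ c h0 hc hs => ?_
    exact h.li c₀ c (mem_cl_empty.1 h0) (fun j => mem_cl_empty.1 (hc j)) hs
  · intro v hv
    induction hv using Submodule.span_induction with
    | mem v hv =>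
      rcases hv with rfl | ⟨j, rfl⟩
      · exact cl_one _
      · exact hlco j
    | zero => exact cl_zero _
    | add v w _ _ hv hw => exact cl_add hv hw
    | smul q v _ hv => exact smul_cl q hv
  · intro v hv
    induction hv using Submodule.span_induction with
    | mem v hv => exact subset_span (mem_insert_of_mem _ hv)
    | zero => exact Submodule.zero_mem _
    | add v w _ _ hv hw => exact Submodule.add_mem _ hv hw
    | smul q v _ hv => exact rat_mem q hv

theorem finrank_PB_le : finrank ℚ (PB α z l b) ≤ n + m := by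
  have h := finrank_range_le_card (R := ℚ) (pr α z l b)
  have h2 : Fintype.card (Fin n ⊕ Fin m) = n + m := by simp
  rw [h2] at h
  exact h

/-- forms are elements of the span -/
theorem mem_WL {w : ℂ} : w ∈ WL l ↔ Form l w := by
  constructor
  · intro hw
    rw [WL, Submodule.mem_span_insert] at hw
    obtain ⟨a, y, hy, rfl⟩ := hw
    obtain ⟨c, rfl⟩ := (Submodule.mem_span_range_iff_exists_fun kk).1 hy
    refine ⟨a, fun j => c j, mem_cl_empty.1 (kk_mem.1 a.2),
      fun j => mem_cl_empty.1 (kk_mem.1 (c j).2), ?_⟩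
    rw [Algebra.smul_def, mul_one]
    congr 1
  · rintro ⟨c₀, c, h0, hc, rfl⟩
    refine Submodule.add_mem _ ?_ (Submodule.sum_mem _ fun j _ => ?_)
    · have : c₀ = (⟨c₀, kk_mem.2 (mem_cl_empty.2 h0)⟩ : kk) • (1 : ℂ) := by
        rw [Algebra.smul_def, mul_one]; rfl
      rw [this]
      exact Submodule.smul_mem _ _ (subset_span (mem_insert _ _))
    · have : c j * l j = (⟨c j, kk_mem.2 (mem_cl_empty.2 (hc j))⟩ : kk) • l j := by
        rw [Algebra.smul_def]; rfl
      rw [this]
      exact Submodule.smul_mem _ _ (subset_span (mem_insert_of_mem _ ⟨j, rfl⟩))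

theorem finWL : FiniteDimensional kk (WL l) :=
  FiniteDimensional.span_of_finite kk ((finite_range l).insert 1)

theorem nb_of_six (h : SixAt l) : Nb 2 (WL l) := by
  have hfin := finWL (l := l)
  refine ⟨hfin, fun θ hθ => ?_⟩
  by_contra hcon
  push Not at hcon
  have hf := finNN (θ := θ) hfin
  obtain ⟨v, hv⟩ := exists_linearIndependent_of_le_finrank (R := kk) (M := NN θ (WL l)) (n := 3)
    (by omega)
  have hv' : LinearIndependent kk fun j => (v j : ℂ) :=
    hv.map' (NN θ (WL l)).subtype (Submodule.ker_subtype _)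
  have hy : Indep fun j => (v j : ℂ) := by
    intro c hc hs j
    have h1 := Fintype.linearIndependent_iff.1 hv' (fun j => ⟨c j, kk_mem.2 (mem_cl_empty.2 (hc j))⟩)
      (by
        rw [← hs]
        exact Finset.sum_congr rfl fun j _ => by rw [Algebra.smul_def]; rfl) j
    exact congrArg Subtype.val h1
  have hx : Indep ![(1 : ℂ), θ] := by
    intro c hc hs
    rw [Fin.sum_univ_two] at hs
    simp only [Matrix.cons_val_zero, Matrix.cons_val_one, mul_one] at hs
    have h1 : c 1 = 0 := by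
      by_contra h1
      apply hθ
      have : θ = -(c 0) / c 1 := by
        field_simp
        linear_combination hs
      rw [this]
      exact kk_mem.2 (cl_div (cl_neg (mem_cl_empty.2 (hc 0))) (mem_cl_empty.2 (hc 1)))
    have h0 : c 0 = 0 := by
      rw [h1] at hs; simpa using hs
    intro i
    fin_cases i
    exacts [h0, h1]
  obtain ⟨i, j, hij⟩ := h _ _ hx hy
  apply hij
  rw [← mem_WL]
  have hvj := mem_NN.1 (v j).2
  fin_cases i
  · show (1 : ℂ) * (v j : ℂ) ∈ WL l
    rw [one_mul]; exact hvj.1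
  · exact hvj.2

end

end Pool.Agent.Helper35.GF
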