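import Mathlib

/-!
Definitions for the result on `MP_c82530_nt`: exponential fields with cyclic kernel, the theorems of
Lindemann-Weierstrass, Baker and Roy in such a field, and the points of the field.
-/

namespace Pool.Agent.Helper35.GF

open Set

/-- An exponential field: an algebraically closed subfield `K` of `ℂ` and a surjective homomorphism `E`
from the additive group of `K` to its multiplicative group, with infinite cyclic kernel. -/
structure ExpField where
  K : Subfield ℂ
  E : ℂ → ℂ
  closed : ∀ z : ℂ, IsAlgebraic K z → z ∈ K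
  E_mem : ∀ x ∈ K, E x ∈ K
  E_add : ∀ x ∈ K, ∀ y ∈ K, E (x + y) = E x * E y
  E_surj : ∀ y ∈ K, y ≠ 0 → ∃ x ∈ K, E x = y
  ker : ∃ τ ∈ K, τ ≠ 0 ∧ ∀ x ∈ K, E x = 1 ↔ ∃ n : ℤ, x = n * τ

/-- Lindemann-Weierstrass: for rationally independent algebraic `α i` the `E (α i)` are
algebraically independent. -/
def LindemannWeierstrass (F : ExpField) : Prop :=
  ∀ (n : ℕ) (α : Fin n → ℂ), (∀ i, IsAlgebraic ℚ (α i)) → LinearIndependent ℚ α →
    AlgebraicIndependent ℚ fun i => F.E (α i)

/-- logarithms of algebraic numbers -/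
def IsLog (F : ExpField) (u : ℂ) : Prop := u ∈ F.K ∧ IsAlgebraic ℚ (F.E u)

/-- `1` and the numbers `u i` are linearly independent over the field of algebraic numbers -/
def IndepWithOne {n : ℕ} (u : Fin n → ℂ) : Prop :=
  ∀ (c₀ : ℂ) (c : Fin n → ℂ), IsAlgebraic ℚ c₀ → (∀ i, IsAlgebraic ℚ (c i)) →
    c₀ + ∑ i, c i * u i = 0 → c₀ = 0 ∧ ∀ i, c i = 0

/-- Baker: `1` and rationally independent logarithms of algebraic numbers are linearly independent
over the field of algebraic numbers. -/
def Baker (F : ExpField) : Prop :=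
  ∀ (n : ℕ) (u : Fin n → ℂ), (∀ i, IsLog F (u i)) → LinearIndependent ℚ u → IndepWithOne u

/-- the conjecture on the algebraic independence of logarithms, for the field -/
def LogIndependence (F : ExpField) : Prop :=
  ∀ (n : ℕ) (u : Fin n → ℂ), (∀ i, IsLog F (u i)) → LinearIndependent ℚ u →
    AlgebraicIndependent ℚ u

/-- linear combinations of `1` and the numbers `u i` with algebraic coefficients -/
def Form {n : ℕ} (u : Fin n → ℂ) (z : ℂ) : Prop :=
  ∃ (c₀ : ℂ) (c : Fin n → ℂ), IsAlgebraic ℚ c₀ ∧ (∀ i, IsAlgebraic ℚ (c i)) ∧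
    z = c₀ + ∑ i, c i * u i

/-- linear combinations of `1` and logarithms of algebraic numbers, with algebraic coefficients -/
def LogForm (F : ExpField) (z : ℂ) : Prop :=
  ∃ (n : ℕ) (u : Fin n → ℂ), (∀ i, IsLog F (u i)) ∧ Form u z

/-- linear independence over the field of algebraic numbers -/
def Indep {n : ℕ} (x : Fin n → ℂ) : Prop :=
  ∀ c : Fin n → ℂ, (∀ i, IsAlgebraic ℚ (c i)) → ∑ i, c i * x i = 0 → ∀ i, c i = 0

/-- The strong six exponentials theorem (Roy): if `x 0, x 1` and `y 0, y 1, y 2` are linearly
independent over the algebraic numbers, then one of the six products `x i * y j` is not a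
linear combination of `1` and logarithms of algebraic numbers. -/
def StrongSixExponentials (F : ExpField) : Prop :=
  ∀ (x : Fin 2 → ℂ) (y : Fin 3 → ℂ), Indep x → Indep y → ∃ i j, ¬ LogForm F (x i * y j)

/-- the assertion of the strong six exponentials theorem for the linear forms in `1` and `l j` -/
def SixAt {m : ℕ} (l : Fin m → ℂ) : Prop :=
  ∀ (x : Fin 2 → ℂ) (y : Fin 3 → ℂ), Indep x → Indep y → ∃ i j, ¬ Form l (x i * y j)

/-- `(x, l)` is a point of the field for the exponents `α` and the logarithms `b`: `x i` is the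
exponential of `α i`, and the `l j` are rationally independent logarithms of the numbers `exp (b j)`. -/
structure Point (F : ExpField) {n m : ℕ} (α : Fin n → ℂ) (b : Fin m → ℂ) (x : Fin n → ℂ)
    (l : Fin m → ℂ) : Prop where
  exps : ∀ i, F.E (α i) = x i
  mem : ∀ j, l j ∈ F.K
  logs : ∀ j, F.E (l j) = Complex.exp (b j)
  indep : LinearIndependent ℚ l

/-- All relations between exponentials of algebraic numbers and logarithms of algebraic numbers in the field
come from the point: exponentials and logarithms which are rationally independent modulo the `α i`, `l j`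
are algebraically independent over `ℚ(x, l)`. -/
def Generated (F : ExpField) {n m : ℕ} (α : Fin n → ℂ) (x : Fin n → ℂ) (l : Fin m → ℂ) : Prop :=
  ∀ (p q : ℕ) (a : Fin p → ℂ) (u : Fin q → ℂ), (∀ i, IsAlgebraic ℚ (a i)) → (∀ j, IsLog F (u j)) →
    LinearIndependent ℚ (Fin.append α a) → LinearIndependent ℚ (Fin.append l u) →
    AlgebraicIndependent (IntermediateField.adjoin ℚ (range x ∪ range l))
      (Fin.append (fun i => F.E (a i)) u)

/-- the field of algebraic numbers -/
noncomputable abbrev Qbar : IntermediateField ℚ ℂ := algebraicClosure ℚ ℂ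

/-- `P` is the set of all polynomial relations with algebraic coefficients between the numbers
`x i`, `l j` -/
def Relations {n m : ℕ} (x : Fin n → ℂ) (l : Fin m → ℂ)
    (P : Ideal (MvPolynomial (Fin n ⊕ Fin m) Qbar)) : Prop :=
  ∀ g : MvPolynomial (Fin n ⊕ Fin m) Qbar, MvPolynomial.aeval (Sum.elim x l) g = 0 ↔ g ∈ P

/-- no nonzero polynomial of `P` involves only the first or only the last variables -/
def Mixed {n m : ℕ} (P : Ideal (MvPolynomial (Fin n ⊕ Fin m) Qbar)) : Prop :=
  (∀ g : MvPolynomial (Fin n) Qbar, MvPolynomial.rename Sum.inl g ∈ P → g = 0) ∧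
    ∀ g : MvPolynomial (Fin m) Qbar, MvPolynomial.rename Sum.inr g ∈ P → g = 0

end Pool.Agent.Helper35.GF
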