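import Pool.Agent.Helper35.EM.Rank

/-! Points of prime ideals. -/

set_option autoImplicit false

namespace Pool.Agent.Helper35.GF

open Pool.Agent.Helper35.EM Set

theorem exists_seq (k : IntermediateField ℚ ℂ) [Algebra.IsAlgebraic ℚ k] :
    ∃ t : ℕ → ℂ, AlgebraicIndependent k t := by
  obtain ⟨s, hs⟩ := exists_isTranscendenceBasis ℚ ℂ
  have hbase : M.IsBase s := AlgebraicIndependent.matroid_isBase_iff.2 hs
  have hinf : s.Infinite := by
    intro hfin
    have h1 : (M.closure s).Countable := countable_closure hfin.countable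
    have h2 : M.closure s = univ := hbase.closure_eq
    rw [h2] at h1
    exact not_countable_complex h1
  have : Infinite s := hinf.to_subtype
  let f := Infinite.natEmbedding s
  have h1 := hs.1.comp f f.injective
  exact ⟨_, h1.extendScalars k⟩

theorem exists_embedding (k : IntermediateField ℚ ℂ) [Algebra.IsAlgebraic ℚ k] {σ : Type} [Fintype σ]
    {A : Type} [CommRing A] [IsDomain A] [Algebra k A] (X : σ → A)
    (htop : Algebra.adjoin k (range X) = ⊤) : ∃ ψ : A →ₐ[k] ℂ, Function.Injective ψ := by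
  have halg : Algebra.IsAlgebraic (Algebra.adjoin k (range X)) A := by
    rw [htop]
    have := Algebra.isIntegral_of_surjective (R := (⊤ : Subalgebra k A)) (B := A)
      (fun x => ⟨⟨x, ⟨⟩⟩, rfl⟩)
    infer_instance
  obtain ⟨s, hsX, hs⟩ := exists_isTranscendenceBasis_subset (R := k) (range X)
  have hfin : s.Finite := (finite_range X).subset hsX
  have : Countable s := hfin.countable.to_subtype
  obtain ⟨e, he⟩ := exists_injective_nat s
  obtain ⟨t, ht⟩ := exists_seq k
  have hte : AlgebraicIndependent k (fun i : s => t (e i)) := ht.comp e he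
  set R := Algebra.adjoin k (range ((↑) : s → A)) with hR
  have hRalg : Algebra.IsAlgebraic R A := hs.isAlgebraic
  let φ : R →ₐ[k] ℂ := (MvPolynomial.aeval fun i : s => t (e i)).comp hs.1.aevalEquiv.symm.toAlgHom
  have hφ : Function.Injective φ :=
    Function.Injective.comp (g := MvPolynomial.aeval fun i : s => t (e i)) hte
      hs.1.aevalEquiv.symm.injective
  let _ : Algebra R ℂ := φ.toRingHom.toAlgebra
  have hmap : ∀ r : R, algebraMap R ℂ r = φ r := fun r => rfl
  have : FaithfulSMul R ℂ := (faithfulSMul_iff_algebraMap_injective R ℂ).2 hφ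
  have : IsScalarTower k R ℂ := .of_algebraMap_eq fun x => (φ.commutes x).symm
  have hT1 : Module.IsTorsionFree R A := inferInstance
  have hT2 : Module.IsTorsionFree R ℂ := inferInstance
  let ψ : A →ₐ[R] ℂ := IsAlgClosed.lift
  have hψ : Function.Injective ψ := by
    rw [injective_iff_map_eq_zero]
    intro a ha
    by_contra hne
    have h1 := Ideal.comap_ne_bot_of_algebraic_mem (R := R) (I := RingHom.ker ψ) hne
      ((RingHom.mem_ker).2 ha) (Algebra.IsAlgebraic.isAlgebraic a)
    apply h1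
    rw [eq_bot_iff]
    intro r hr
    have h2 : ψ (algebraMap R A r) = 0 := hr
    rw [AlgHom.commutes, hmap] at h2
    exact (injective_iff_map_eq_zero φ).1 hφ r h2
  exact ⟨ψ.restrictScalars k, hψ⟩

theorem exists_hom (k : IntermediateField ℚ ℂ) [Algebra.IsAlgebraic ℚ k] {σ : Type} [Fintype σ]
    {B : Type} [CommRing B] [Algebra k B] (X : σ → B)
    (htop : Algebra.adjoin k (range X) = ⊤) (P : Ideal B) [hP : P.IsPrime] :
    ∃ ψ : B →ₐ[k] ℂ, ∀ g : B, ψ g = 0 ↔ g ∈ P := by
  have hdom : IsDomain (B ⧸ P) := Ideal.Quotient.isDomain P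
  have htop' : Algebra.adjoin k (range fun i : σ => Ideal.Quotient.mkₐ k P (X i)) = ⊤ := by
    have h1 : (Ideal.Quotient.mkₐ k P).range = ⊤ :=
      (AlgHom.range_eq_top _).2 Ideal.Quotient.mk_surjective
    rw [← h1, ← Algebra.map_top, ← htop, AlgHom.map_adjoin, ← range_comp]
    rfl
  obtain ⟨ψ', hψ⟩ := exists_embedding k _ htop'
  refine ⟨ψ'.comp (Ideal.Quotient.mkₐ k P), fun g => ?_⟩
  rw [AlgHom.comp_apply, ← Ideal.Quotient.eq_zero_iff_mem]
  exact ⟨fun h => hψ (by rw [map_zero]; exact h), fun h => by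
    rw [Ideal.Quotient.mkₐ_eq_mk, h, map_zero]⟩

theorem exists_point (k : IntermediateField ℚ ℂ) [Algebra.IsAlgebraic ℚ k] {σ : Type} [Fintype σ]
    (P : Ideal (MvPolynomial σ k)) [hP : P.IsPrime] :
    ∃ y : σ → ℂ, ∀ g : MvPolynomial σ k, MvPolynomial.aeval y g = 0 ↔ g ∈ P := by
  obtain ⟨ψ, hψ⟩ := exists_hom k (MvPolynomial.X : σ → MvPolynomial σ k)
    MvPolynomial.adjoin_range_X P
  refine ⟨fun i => ψ (MvPolynomial.X i), fun g => ?_⟩
  rw [← hψ]
  have : (MvPolynomial.aeval fun i => ψ (MvPolynomial.X i)) = ψ := by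
    apply MvPolynomial.algHom_ext
    intro i
    rw [MvPolynomial.aeval_X]
  rw [this]

end Pool.Agent.Helper35.GF
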