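import Pool.Agent.Helper35.GF.Stm

/-! Package MU. -/

set_option autoImplicit false

namespace Pool.Agent.Helper35.GF

open Pool.Agent.Helper35.EM Pool.Agent.Helper56.EM Pool.Agent.Helper56.SA Module Submodule Set

theorem rk_range {n : ℕ} {x : Fin n → ℂ} (hx : AlgebraicIndependent ℚ x) :
    M.eRk (range x) = n := by
  have hinj := hx.injective
  have h4 : M.Indep (range x) := (algebraicIndependent_subtype_range hinj).2 hx
  rw [h4.eRk_eq_encard, ← image_univ, hinj.encard_image, encard_univ]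
  simp

theorem mu2 (n : ℕ) (x z : Fin n → ℂ) (hx : AlgebraicIndependent ℚ x)
    (hz : ∀ i, Complex.exp (z i) = x i) (U : Submodule ℚ (Fin n → ℚ)) :
    (finrank ℚ U : ℕ∞) ≤ M.eRk {c | ∃ a ∈ U, c = Complex.exp (∑ i, (a i : ℂ) * z i)} := by
  let φ : (Fin n → ℚ) →ₗ[ℚ] ℂ := Fintype.linearCombination ℚ z
  have hφ : ∀ a : Fin n → ℚ, φ a = ∑ i, (a i : ℂ) * z i := fun a => by
    show ∑ i, a i • z i = _
    exact Finset.sum_congr rfl fun i _ => by rw [Rat.smul_def]
  simp only [← hφ]
  obtain ⟨C, hC⟩ := Submodule.exists_isCompl U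
  have hdim : finrank ℚ U + finrank ℚ C = n := by
    rw [Submodule.finrank_add_eq_of_isCompl hC]; simp
  let bs := Module.finBasis ℚ C
  set RU : Set ℂ := {c | ∃ a ∈ U, c = Complex.exp (φ a)} with hRU
  set RC : Set ℂ := range fun j => Complex.exp (φ (bs j)) with hRC
  have hcl : ∀ a : Fin n → ℚ, Complex.exp (φ a) ∈ M.closure (RU ∪ RC) := by
    intro a
    have ha : a ∈ U ⊔ C := by rw [hC.sup_eq_top]; trivial
    obtain ⟨u, hu, c, hc, rfl⟩ := Submodule.mem_sup.1 ha
    rw [map_add]
    refine cl_exp_add (cl_self (Or.inl ⟨u, hu, rfl⟩)) ?_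
    have h1 : (⟨c, hc⟩ : C) ∈ span ℚ (range bs) := by rw [bs.span_eq]; trivial
    have h2 : ∀ w ∈ span ℚ (range bs), Complex.exp (φ (w : C)) ∈ M.closure (RU ∪ RC) := by
      intro w hw
      induction hw using Submodule.span_induction with
      | mem w hw => obtain ⟨j, rfl⟩ := hw; exact cl_self (Or.inr ⟨j, rfl⟩)
      | zero =>
        rw [Submodule.coe_zero, map_zero, Complex.exp_zero]; exact cl_one _
      | add v w _ _ hv hw =>
        rw [Submodule.coe_add, map_add]; exact cl_exp_add hv hw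
      | smul q v _ hv =>
        rw [Submodule.coe_smul, map_smul]; exact cl_exp_smul q hv
    exact h2 _ h1
  have h1 : (n : ℕ∞) ≤ M.eRk RU + (finrank ℚ C : ℕ∞) := by
    calc (n : ℕ∞) = M.eRk (range x) := (rk_range hx).symm
      _ ≤ M.eRk (M.closure (RU ∪ RC)) := by
        apply M.eRk_mono
        rintro _ ⟨i, rfl⟩
        have h2 := hcl (Pi.single i 1)
        rw [hφ] at h2
        have h3 : ∑ j, ((Pi.single i (1 : ℚ) : Fin n → ℚ) j : ℂ) * z j = z i := by
          rw [Finset.sum_eq_single i]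
          · simp
          · intro j _ hj; simp [Pi.single_eq_of_ne hj]
          · intro h; exact absurd (Finset.mem_univ i) h
        rw [h3, hz] at h2
        exact h2
      _ = M.eRk (RU ∪ RC) := M.eRk_closure_eq _
      _ ≤ M.eRk RU + M.eRk RC := M.eRk_union_le_eRk_add_eRk _ _
      _ ≤ M.eRk RU + (finrank ℚ C : ℕ∞) := by
        gcongr
        refine (M.eRk_le_encard _).trans ?_
        rw [hRC, ← image_univ]
        refine (encard_image_le _ _).trans ?_
        rw [encard_univ]; simp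
  have h2 : (finrank ℚ U : ℕ∞) + (finrank ℚ C : ℕ∞) ≤ M.eRk RU + (finrank ℚ C : ℕ∞) := by
    refine le_trans ?_ h1
    exact_mod_cast hdim.le
  exact (ENat.add_le_add_iff_right (by simp)).1 h2

theorem mu : S_Mult := by
  intro n x z hx hz
  refine ⟨fun a ha => ?_, mu2 n x z hx hz⟩
  by_contra hne
  have h1 := mu2 n x z hx hz (span ℚ {a})
  rw [finrank_span_singleton hne] at h1
  have h2 : M.eRk {c | ∃ a' ∈ span ℚ {a}, c = Complex.exp (∑ i, (a' i : ℂ) * z i)} ≤
      M.eRk (M.closure ∅) := by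
    apply M.eRk_mono
    rintro _ ⟨a', ha', rfl⟩
    obtain ⟨q, rfl⟩ := Submodule.mem_span_singleton.1 ha'
    have h3 := cl_exp_smul q ha
    have e : q • ∑ i, (a i : ℂ) * z i = ∑ i, ((q • a) i : ℂ) * z i := by
      rw [Rat.smul_def, Finset.mul_sum]
      refine Finset.sum_congr rfl fun i _ => ?_
      simp only [Pi.smul_apply, smul_eq_mul, Rat.cast_mul]
      ring
    rwa [e] at h3
  rw [M.eRk_closure_eq, M.eRk_empty] at h2
  have h3 := h1.trans h2
  simp at h3

end Pool.Agent.Helper35.GF
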