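import Pool.Agent.Helper35.GF.Main
import Pool.Agent.Helper35.GF.MU

/-! The points allowed by the theorems of Lindemann-Weierstrass, Baker and Roy. -/

set_option autoImplicit false

namespace Pool.Agent.Helper35.GF

open Pool.Agent.Helper35.EM Set

variable {n m : ℕ}

theorem point_nec {α x : Fin n → ℂ} {l b : Fin m → ℂ} (hα : ∀ i, IsAlgebraic ℚ (α i))
    (hαi : LinearIndependent ℚ α) (hb : ∀ j, IsAlgebraic ℚ (Complex.exp (b j)))
    (F : ExpField) (hF : Point F α b x l) :
    (LindemannWeierstrass F → AlgebraicIndependent ℚ x) ∧ (Baker F → IndepWithOne l) ∧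
      (StrongSixExponentials F → SixAt l) := by
  have hl : ∀ j, IsLog F (l j) := fun j => ⟨hF.mem j, by rw [hF.logs]; exact hb j⟩
  refine ⟨fun h => ?_, fun h => h m l hl hF.indep, fun h => ?_⟩
  · have h1 := h n α hα hαi
    have : (fun i => F.E (α i)) = x := funext hF.exps
    rwa [this] at h1
  · intro u v hu hv
    obtain ⟨i, j, hij⟩ := h u v hu hv
    exact ⟨i, j, fun h2 => hij ⟨m, l, hl, h2⟩⟩

theorem point_suf {α x : Fin n → ℂ} {l b : Fin m → ℂ} (hα : ∀ i, IsAlgebraic ℚ (α i))
    (hαi : LinearIndependent ℚ α) (hb : ∀ j, IsAlgebraic ℚ (Complex.exp (b j)))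
    (hbi : LinearIndependent ℚ b) (hx : AlgebraicIndependent ℚ x) (hl : IndepWithOne l) :
    ∃ F : ExpField, LindemannWeierstrass F ∧ Baker F ∧ (SixAt l → StrongSixExponentials F) ∧
      Point F α b x l ∧ Generated F α x l := by
  refine exists_field mu (z := fun i => Complex.log (x i)) ⟨fun i => mem_cl_empty.2 (hα i), hαi,
    fun i => Complex.exp_log (hx.ne_zero i), hx, fun j => mem_cl_empty.2 (hb j), hbi, hl⟩

end Pool.Agent.Helper35.GF
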