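import Pool.Agent.Helper56.SA.Tow
import Pool.Agent.Helper35.GF.Defs

/-! The exponential field of a base. -/

set_option autoImplicit false

namespace Pool.Agent.Helper35.GF

open Pool.Agent.Helper35.EM Pool.Agent.Helper56.EM Pool.Agent.Helper56.SA Module Submodule Set

/-- what is needed from the base -/
structure GB (P0 : Submodule ℚ (ℂ × ℂ)) (L0 : Submodule ℚ ℂ) (W0 : Submodule kk ℂ) : Prop where
  lw : ∀ U ≤ P0, (∀ q ∈ U, q.1 ∈ M.closure ∅) → (finrank ℚ U : ℕ∞) ≤ M.eRk (co U)
  F2 : ∀ q ∈ P0, Complex.exp q.2 ∈ M.closure ∅ → q.1 ∈ L0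
  L0co : ∀ x ∈ L0, x ∈ M.closure (co P0)
  bk : BK L0
  W0co : ∀ x ∈ W0, x ∈ M.closure (co P0)
  L0W : ∀ x ∈ L0, x ∈ W0
  one_mem : (1 : ℂ) ∈ W0

theorem lw' {K : IntermediateField ℚ ℂ} {lam : K →ₗ[ℚ] ℂ} {P0 : Submodule ℚ (ℂ × ℂ)}
    (hT : Tw lam P0)
    (hlw : ∀ U ≤ P0, (∀ q ∈ U, q.1 ∈ M.closure ∅) → (finrank ℚ U : ℕ∞) ≤ M.eRk (co U))
    {n : ℕ} (α : Fin n → K) (ha : ∀ i, (α i : ℂ) ∈ M.closure ∅) (hi : LinearIndependent ℚ α) :
    AlgebraicIndependent ℚ fun i => Complex.exp (lam (α i)) := by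
  set V : Submodule ℚ K := span ℚ (range α) with hV
  have hfV : FiniteDimensional ℚ V := FiniteDimensional.span_of_finite ℚ (finite_range α)
  have hdim : finrank ℚ V = n := by
    have := finrank_span_eq_card hi
    simpa using this
  have h1 := hT.rk V hfV
  set I := V.map (gr lam) ⊓ P0 with hI
  have hcl : ∀ y ∈ V, (y : ℂ) ∈ M.closure ∅ ∧
      Complex.exp (lam y) ∈ M.closure (range fun i => Complex.exp (lam (α i))) := by
    intro y hy
    induction hy using Submodule.span_induction with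
    | mem x hx => obtain ⟨i, rfl⟩ := hx; exact ⟨ha i, cl_self ⟨i, rfl⟩⟩
    | zero => exact ⟨cl_zero _, by rw [map_zero, Complex.exp_zero]; exact cl_one _⟩
    | add x y _ _ hx hy => exact ⟨cl_add hx.1 hy.1, by rw [map_add]; exact cl_exp_add hx.2 hy.2⟩
    | smul q x _ hx => exact ⟨cl_smul q hx.1, by rw [map_smul]; exact cl_exp_smul q hx.2⟩
  have hle : (finrank ℚ I : ℕ∞) ≤ M.eRk (co I) := by
    apply hlw I inf_le_right
    rintro q ⟨⟨y, hy, rfl⟩, -⟩
    exact (hcl y hy).1
  have hn : (n : ℕ∞) ≤ M.eRk (co (V.map (gr lam))) := by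
    rw [hdim] at h1
    have h2 := h1.trans (add_le_add_right hle _)
    have htop : M.eRk (co I) ≠ ⊤ := by
      refine ne_top_of_le_ne_top hT.top (M.eRk_mono ?_)
      exact co_mono inf_le_right
    exact (ENat.add_le_add_iff_right htop).1 h2
  apply algInd_of_rk
  refine hn.trans ?_
  rw [← M.eRk_closure_eq (range _)]
  apply M.eRk_mono
  rintro a ⟨_, ⟨y, hy, rfl⟩, rfl | rfl⟩
  · exact cl_empty_le (hcl y hy).1
  · exact (hcl y hy).2

theorem cl_idem {s : Set ℂ} {z : ℂ} (h : IsAlgebraic (clF s).toSubfield z) : z ∈ clF s := by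
  have h1 : IsAlgebraic (clF s) z := h
  have h2 : z ∈ M.closure (clF s : Set ℂ) := by
    rw [mem_cl, mem_clF, IntermediateField.adjoin_self]
    exact h1
  rw [← cl_eq, M.closure_closure] at h2
  exact mem_cl.1 h2

theorem GB.field {t : ℕ → ℂ} (ht : Free t) {N : ℕ} {P0 : Submodule ℚ (ℂ × ℂ)}
    {L0 : Submodule ℚ ℂ} {W0 : Submodule kk ℂ} (hst : St P0 (t '' Iio N)) (τ : ℂ)
    (hτ : (τ, 2 * (Real.pi : ℂ) * Complex.I) ∈ P0) (h : GB P0 L0 W0) :
    ∃ (K : IntermediateField ℚ ℂ) (lam : K →ₗ[ℚ] ℂ) (F : ExpField), F.K = K.toSubfield ∧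
      (∀ x : K, F.E x = Complex.exp (lam x)) ∧ Tw lam P0 ∧ (∀ z ∈ M.closure ∅, z ∈ K) ∧
      LindemannWeierstrass F ∧ Baker F ∧ (Nb 2 W0 → StrongSixExponentials F) := by
  classical
  obtain ⟨E, lam, hE, hsurj, hker, hP, hrk⟩ := extension ht hst τ hτ
  have hT : Tw lam P0 := ⟨hst.fin, hst.rk_ne_top ((finite_Iio N).image t) le_rfl, hP, hrk⟩
  have hKk : ∀ z ∈ M.closure ∅, z ∈ clF (range t) := fun z hz => mem_cl.1 (cl_empty_le hz)
  have hidem : ∀ z : ℂ, IsAlgebraic (clF (range t)).toSubfield z → z ∈ clF (range t) :=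
    fun z hz => cl_idem hz
  generalize clF (range t) = K at *
  let EE : ℂ → ℂ := fun x => if hx : x ∈ K then Complex.exp (lam ⟨x, hx⟩) else 0
  have hEE : ∀ x : K, EE x = Complex.exp (lam x) := fun x => by
    simp only [EE]
    rw [dif_pos x.2]
  have hexpK : ∀ x : K, Complex.exp (lam x) ∈ K := fun x => by rw [← hE]; exact (E x).2
  have hτ0 : τ ≠ 0 := by
    intro h0
    have h1 := congrArg Prod.snd (hst.inj1 _ hτ h0)
    have h2 : (2 * (Real.pi : ℂ) * Complex.I) ≠ 0 := Complex.two_pi_I_ne_zero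
    exact h2 h1
  have hτK : τ ∈ K := by
    obtain ⟨x, h1, -⟩ := hP _ hτ
    have h1' : (x : ℂ) = τ := h1
    rw [← h1']; exact x.2
  let F : ExpField :=
    { K := K.toSubfield
      E := EE
      closed := hidem
      E_mem := fun x hx => by
        show EE x ∈ K
        rw [hEE ⟨x, hx⟩]; exact hexpK _
      E_add := fun x hx y hy => by
        have h1 := hEE (⟨x, hx⟩ + ⟨y, hy⟩)
        rw [map_add, Complex.exp_add, ← hEE, ← hEE] at h1
        exact h1
      E_surj := fun y hy hy0 => by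
        obtain ⟨x, hx⟩ := hsurj ⟨y, hy⟩ (fun h0 => hy0 (congrArg Subtype.val h0))
        refine ⟨x, x.2, ?_⟩
        rw [hEE, ← hE, hx]
      ker := ⟨τ, hτK, hτ0, fun x hx => by
        have h1 := hker ⟨x, hx⟩
        have h2 : EE x = 1 ↔ E ⟨x, hx⟩ = 1 := by
          rw [hEE ⟨x, hx⟩, ← hE]
          constructor
          · intro h0; exact Subtype.ext h0
          · intro h0; rw [h0]; rfl
        rw [h2, h1]⟩ }
  -- the logarithms of finitely many algebraic numbers
  have hstage : ∀ (ι : Type) [Finite ι] (u : ι → ℂ), (∀ i, IsLog F (u i)) →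
      ∃ w : List K, Gn (co P0) w ∧ ∀ i, u i ∈ L0 ⊔ span ℚ (lc w) := by
    intro ι _ u hu
    let u' : ι → K := fun i => ⟨u i, (hu i).1⟩
    have hlog : ∀ x ∈ range u', Complex.exp (lam x) ∈ M.closure ∅ := by
      rintro _ ⟨i, rfl⟩
      rw [← hEE]
      exact mem_cl_empty.2 (hu i).2
    obtain ⟨w, h1, h2, h3⟩ := hT.stage (finite_range u') hlog
    refine ⟨w, h2, fun i => ?_⟩
    exact hT.log_mem h.F2 h1 (hlog _ ⟨i, rfl⟩) (h3 _ ⟨i, rfl⟩)
  refine ⟨K, lam, F, rfl, hEE, hT, hKk, ?_, ?_, ?_⟩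
  · intro n α ha hi
    have hmem : ∀ i, α i ∈ K := fun i => hKk _ (mem_cl_empty.2 (ha i))
    let α' : Fin n → K := fun i => ⟨α i, hmem i⟩
    have hi' : LinearIndependent ℚ α' := by
      have h1 : α = K.val.toLinearMap ∘ α' := rfl
      rw [h1] at hi
      exact hi.of_comp _
    have h1 := lw' hT h.lw α' (fun i => mem_cl_empty.2 (ha i)) hi'
    have h2 : (fun i => F.E (α i)) = fun i => Complex.exp (lam (α' i)) := by
      funext i; exact hEE (α' i)
    rw [h2]; exact h1
  · intro n u hu hi c₀ c h0 hc hs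
    obtain ⟨w, h1, h2⟩ := hstage (Fin n) u hu
    exact ((h.bk.gen h.L0co w h1).1).indep h2 hi (mem_cl_empty.2 h0)
      (fun i => mem_cl_empty.2 (hc i)) hs
  · intro hnb x y hx hy
    by_contra hcon
    push Not at hcon
    choose n u hu c₀ c h0 hc hz using hcon
    obtain ⟨w, hw, hmem⟩ := hstage (Σ ij : Fin 2 × Fin 3, Fin (n ij.1 ij.2))
      (fun k => u k.1.1 k.1.2 k.2) (fun k => hu k.1.1 k.1.2 k.2)
    obtain ⟨hN, -⟩ := hnb.gen h.W0co w hw
    set W := W0 ⊔ span kk (lc w) with hW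
    have hmW : ∀ i j k, u i j k ∈ W := by
      intro i j k
      have h1 : u i j k ∈ L0 ⊔ span ℚ (lc w) := hmem ⟨(i, j), k⟩
      obtain ⟨v, hv, z, hz, hvz⟩ := Submodule.mem_sup.1 h1
      rw [← hvz]
      refine Submodule.add_mem_sup (h.L0W v hv) ?_
      clear hvz
      induction hz using Submodule.span_induction with
      | mem x hx => exact subset_span hx
      | zero => exact Submodule.zero_mem _
      | add x y _ _ hx hy => exact Submodule.add_mem _ hx hy
      | smul q x _ hx =>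
        have : q • x = (⟨(q : ℂ), kk_mem.2 (cl_ratCast _ q)⟩ : kk) • x := by
          rw [Rat.smul_def, Algebra.smul_def]; rfl
        rw [this]
        exact Submodule.smul_mem _ _ hx
    have hzW : ∀ i j, x i * y j ∈ W := by
      intro i j
      rw [hz i j]
      refine Submodule.add_mem _ ?_ (Submodule.sum_mem _ fun k _ => ?_)
      · have : c₀ i j = (⟨c₀ i j, kk_mem.2 (mem_cl_empty.2 (h0 i j))⟩ : kk) • (1 : ℂ) := by
          rw [Algebra.smul_def, mul_one]; rfl
        rw [this]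
        exact Submodule.smul_mem _ _ (Submodule.mem_sup_left h.one_mem)
      · have : c i j k * u i j k = (⟨c i j k, kk_mem.2 (mem_cl_empty.2 (hc i j k))⟩ : kk) •
            u i j k := by
          rw [Algebra.smul_def]; rfl
        rw [this]
        exact Submodule.smul_mem _ _ (hmW i j k)
    have hx0 : x 0 ≠ 0 := by
      intro h1
      have := hx ![1, 0] (by
        intro i; fin_cases i
        · exact isAlgebraic_one
        · exact isAlgebraic_zero) (by rw [Fin.sum_univ_two]; simp [h1]) 0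
      simp at this
    have hθ : x 1 / x 0 ∉ kk := by
      intro h1
      have h2 := mem_cl_empty.1 (kk_mem.1 h1)
      have := hx ![-(x 1 / x 0), 1] (by
        intro i; fin_cases i
        · exact h2.neg
        · exact isAlgebraic_one) (by
          rw [Fin.sum_univ_two]
          simp only [Matrix.cons_val_zero, Matrix.cons_val_one]
          field_simp
          ring) 1
      simp at this
    have hb := hN.bd _ hθ
    have hf := finNN (θ := x 1 / x 0) hN.fin
    have hli : LinearIndependent kk (fun j : Fin 3 =>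
        (⟨x 0 * y j, mem_NN.2 ⟨hzW 0 j, by
          have : x 1 / x 0 * (x 0 * y j) = x 1 * y j := by field_simp
          rw [this]; exact hzW 1 j⟩⟩ : NN (x 1 / x 0) W)) := by
      rw [Fintype.linearIndependent_iff]
      intro g hg
      have h1 : ∑ j, (g j : ℂ) * (x 0 * y j) = 0 := by
        have := congrArg Subtype.val hg
        simpa [Algebra.smul_def] using this
      have h2 : x 0 * ∑ j, (g j : ℂ) * y j = 0 := by
        rw [← h1, Finset.mul_sum]
        exact Finset.sum_congr rfl fun j _ => by ring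
      have h3 := (mul_eq_zero.1 h2).resolve_left hx0
      have h4 := hy (fun j => (g j : ℂ)) (fun j => mem_cl_empty.1 (kk_mem.1 (g j).2)) h3
      intro j
      exact Subtype.ext (h4 j)
    have h3 := hli.fintype_card_le_finrank
    rw [Fintype.card_fin] at h3
    omega

end Pool.Agent.Helper35.GF
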