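import Pool.Agent.Helper35.GF.Base
import Pool.Agent.Helper22.GF.AI
import Pool.Agent.Helper92.GF.FS

/-! Fields with a prescribed point. -/

set_option autoImplicit false

namespace Pool.Agent.Helper35.GF

open Pool.Agent.Helper35.EM Pool.Agent.Helper56.EM Pool.Agent.Helper56.SA Module Submodule Set

variable {n m : ℕ}

/-- all relations are generated by those of the point -/
theorem generated_of {α z x : Fin n → ℂ} {l b : Fin m → ℂ} (hD : Data α z x l b)
    {P0 : Submodule ℚ (ℂ × ℂ)} (hle : PB α z l b ≤ P0) (hineq : Ineq (PB α z l b) P0)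
    {K : IntermediateField ℚ ℂ} {lam : K →ₗ[ℚ] ℂ} {F : ExpField} (hFK : F.K = K.toSubfield)
    (hFE : ∀ v : K, F.E v = Complex.exp (lam v)) (hT : Tw lam P0) (hKk : ∀ v ∈ M.closure ∅, v ∈ K)
    (hB : Baker F) : Generated F α x l := by
  intro p q a u ha hu hαa hlu
  -- the elements
  have hu' : ∀ j, IsLog F (Fin.append l u j) := by
    intro j
    refine Fin.addCases (fun j => ?_) (fun j => ?_) j
    · rw [Fin.append_left]
      obtain ⟨v, h1, h2⟩ := hT.mem _ (hle (inr_mem α z l b j))
      have h1' : (v : ℂ) = l j := h1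
      have h2' : lam v = b j := h2
      rw [← h1']
      refine ⟨by rw [hFK]; exact v.2, ?_⟩
      rw [hFE, h2']
      exact mem_cl_empty.1 (hD.ba j)
    · rw [Fin.append_right]; exact hu j
  have ha' : ∀ i, Fin.append α a i ∈ M.closure ∅ := by
    intro i
    refine Fin.addCases (fun i => ?_) (fun i => ?_) i
    · rw [Fin.append_left]; exact hD.αa i
    · rw [Fin.append_right]; exact mem_cl_empty.2 (ha i)
  have hind := hB (m + q) (Fin.append l u) hu' hlu
  set w : Fin (n + p) ⊕ Fin (m + q) → ℂ := Sum.elim (Fin.append α a) (Fin.append l u) with hw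
  have hwK : ∀ k, w k ∈ K := by
    rintro (i | j)
    · exact hKk _ (ha' i)
    · have := (hu' j).1
      rw [hFK] at this
      exact this
  set w' : Fin (n + p) ⊕ Fin (m + q) → K := fun k => ⟨w k, hwK k⟩ with hw'
  have hwi : LinearIndependent ℚ w := by
    rw [Fintype.linearIndependent_iff]
    intro g hg
    rw [Fintype.sum_sum_type] at hg
    have h1 := hind (∑ i, g (Sum.inl i) • w (Sum.inl i)) (fun j => (g (Sum.inr j) : ℂ))
      (mem_cl_empty.1 (cl_sum _ _ fun i _ => cl_smul _ (ha' i)))
      (fun j => mem_cl_empty.1 (cl_ratCast _ _)) (by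
        rw [← hg]
        congr 1)
    have h2 := Fintype.linearIndependent_iff.1 hαa (fun i => g (Sum.inl i)) h1.1
    rintro (i | j)
    · exact h2 i
    · exact_mod_cast h1.2 j
  have hwi' : LinearIndependent ℚ w' := by
    have h1 : w = K.val.toLinearMap ∘ w' := rfl
    rw [h1] at hwi
    exact hwi.of_comp _
  set V : Submodule ℚ K := span ℚ (range w') with hV
  have hfV : FiniteDimensional ℚ V := FiniteDimensional.span_of_finite ℚ (finite_range w')
  have hdV : finrank ℚ V = (n + p) + (m + q) := by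
    have := finrank_span_eq_card hwi'
    simpa using this
  have hPV : PB α z l b ≤ V.map (gr lam) := by
    rw [PB, span_le]
    rintro _ ⟨k, rfl⟩
    obtain ⟨v, h1, h2⟩ := hT.mem _ (hle (subset_span ⟨k, rfl⟩ : pr α z l b k ∈ PB α z l b))
    refine ⟨v, ?_, Prod.ext h1 h2⟩
    rcases k with i | j
    · have h1' : (v : ℂ) = α i := h1
      apply subset_span
      refine ⟨Sum.inl (Fin.castAdd p i), Subtype.ext ?_⟩
      show Fin.append α a (Fin.castAdd p i) = v
      rw [Fin.append_left, h1']
    · have h1' : (v : ℂ) = l j := h1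
      apply subset_span
      refine ⟨Sum.inr (Fin.castAdd q j), Subtype.ext ?_⟩
      show Fin.append l u (Fin.castAdd q j) = v
      rw [Fin.append_left, h1']
  -- the inequality relative to the point
  have hfin0 := hT.fin
  have hmain : (finrank ℚ V : ℕ∞) + M.eRk (co (PB α z l b)) ≤
      M.eRk (co (V.map (gr lam))) + (finrank ℚ (PB α z l b) : ℕ∞) := by
    have h1 := hT.rk V hfV
    set I := V.map (gr lam) ⊓ P0 with hI
    have h2 := hineq I inf_le_right
    have e : I ⊓ PB α z l b = PB α z l b := inf_eq_right.2 (le_inf hPV hle)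
    rw [e] at h2
    have htop : M.eRk (co I) ≠ ⊤ :=
      ne_top_of_le_ne_top hT.top (M.eRk_mono (co_mono inf_le_right))
    have htop2 : M.eRk (co (PB α z l b)) ≠ ⊤ :=
      ne_top_of_le_ne_top hT.top (M.eRk_mono (co_mono hle))
    obtain ⟨r, hr⟩ := ENat.ne_top_iff_exists.1 htop
    obtain ⟨r2, hr2⟩ := ENat.ne_top_iff_exists.1 htop2
    rw [← hr] at h1 h2
    rw [← hr2] at h2 ⊢
    generalize M.eRk (co (V.map (gr lam))) = y at h1 ⊢
    induction y using ENat.recTopCoe with
    | top => simp
    | coe y =>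
      norm_cast at h1 h2 ⊢
      omega
  -- the rank
  set S : Set ℂ := range x ∪ range l with hS
  set g : Fin (p + q) → ℂ := Fin.append (fun i => F.E (a i)) u with hg
  have hlamα : ∀ i, ∃ v : K, (v : ℂ) = α i ∧ lam v = z i := fun i =>
    hT.mem _ (hle (inl_mem α z l b i))
  have hlaml : ∀ j, ∃ v : K, (v : ℂ) = l j ∧ lam v = b j := fun j =>
    hT.mem _ (hle (inr_mem α z l b j))
  have hV1 : ∀ v ∈ V, (v : ℂ) ∈ M.closure (S ∪ range g) ∧
      Complex.exp (lam v) ∈ M.closure (S ∪ range g) := by
    intro v hv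
    induction hv using Submodule.span_induction with
    | mem v hv =>
      obtain ⟨k, rfl⟩ := hv
      rcases k with i | j
      · refine ⟨cl_empty_le (ha' i), ?_⟩
        refine Fin.addCases (fun i => ?_) (fun i => ?_) i
        · obtain ⟨v, h1, h2⟩ := hlamα i
          have : w' (Sum.inl (Fin.castAdd p i)) = v := Subtype.ext (by
            show Fin.append α a (Fin.castAdd p i) = v
            rw [Fin.append_left, h1])
          rw [this, h2, hD.zx]
          exact cl_self (Or.inl (Or.inl ⟨i, rfl⟩))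
        · rw [← hFE]
          have : ((w' (Sum.inl (Fin.natAdd n i)) : K) : ℂ) = a i := by
            show Fin.append α a (Fin.natAdd n i) = a i
            rw [Fin.append_right]
          rw [this]
          apply cl_self
          right
          refine ⟨Fin.castAdd q i, ?_⟩
          rw [hg, Fin.append_left]
      · constructor
        · refine Fin.addCases (fun j => ?_) (fun j => ?_) j
          · have : ((w' (Sum.inr (Fin.castAdd q j)) : K) : ℂ) = l j := by
              show Fin.append l u (Fin.castAdd q j) = l j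
              rw [Fin.append_left]
            rw [this]
            exact cl_self (Or.inl (Or.inr ⟨j, rfl⟩))
          · have : ((w' (Sum.inr (Fin.natAdd m j)) : K) : ℂ) = u j := by
              show Fin.append l u (Fin.natAdd m j) = u j
              rw [Fin.append_right]
            rw [this]
            apply cl_self
            right
            refine ⟨Fin.natAdd p j, ?_⟩
            rw [hg, Fin.append_right]
        · rw [← hFE]
          exact cl_empty_le (mem_cl_empty.2 (hu' j).2)
    | zero =>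
      refine ⟨cl_zero _, ?_⟩
      rw [map_zero, Complex.exp_zero]; exact cl_one _
    | add v w _ _ hv hw =>
      refine ⟨cl_add hv.1 hw.1, ?_⟩
      rw [map_add]; exact cl_exp_add hv.2 hw.2
    | smul c v _ hv =>
      refine ⟨cl_smul c hv.1, ?_⟩
      rw [map_smul]; exact cl_exp_smul c hv.2
  have hr1 : M.eRk (co (V.map (gr lam))) ≤ M.eRk (S ∪ range g) := by
    rw [← M.eRk_closure_eq (S ∪ range g)]
    apply M.eRk_mono
    rintro _ ⟨_, ⟨v, hv, rfl⟩, rfl | rfl⟩
    · exact (hV1 v hv).1
    · exact (hV1 v hv).2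
  have hr2 : M.eRk S ≤ M.eRk (co (PB α z l b)) := by
    apply M.eRk_mono
    rintro _ (⟨i, rfl⟩ | ⟨j, rfl⟩)
    · exact ⟨_, inl_mem α z l b i, Or.inr (hD.zx i).symm⟩
    · exact ⟨_, inr_mem α z l b j, Or.inl rfl⟩
  have hStop : M.eRk S ≠ ⊤ :=
    ne_top_of_le_ne_top hT.top (hr2.trans (M.eRk_mono (co_mono hle)))
  apply Pool.Agent.Helper22.GF.ai' S hStop
  have hd := finrank_PB_le (α := α) (z := z) (l := l) (b := b)
  have h3 : (((n + p) + (m + q) : ℕ) : ℕ∞) + M.eRk S ≤ M.eRk (S ∪ range g) + ((n + m : ℕ) : ℕ∞) := by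
    rw [← hdV]
    calc (finrank ℚ V : ℕ∞) + M.eRk S ≤ (finrank ℚ V : ℕ∞) + M.eRk (co (PB α z l b)) := by gcongr
      _ ≤ M.eRk (co (V.map (gr lam))) + (finrank ℚ (PB α z l b) : ℕ∞) := hmain
      _ ≤ _ := by
        gcongr
  have h4 : ((n + m : ℕ) : ℕ∞) + (M.eRk S + ((p + q : ℕ) : ℕ∞)) ≤
      ((n + m : ℕ) : ℕ∞) + M.eRk (S ∪ range g) := by
    calc ((n + m : ℕ) : ℕ∞) + (M.eRk S + ((p + q : ℕ) : ℕ∞)) =
        (((n + p) + (m + q) : ℕ) : ℕ∞) + M.eRk S := by push_cast; ring
      _ ≤ _ := h3
      _ = _ := by rw [add_comm]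
  exact (ENat.add_le_add_iff_left (by simp)).1 h4

end Pool.Agent.Helper35.GF
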