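import Pool.Agent.Helper35.GF.Six
import Pool.Agent.Helper35.GF.Emb

/-! Ideals of relations. -/

set_option autoImplicit false

namespace Pool.Agent.Helper35.GF

open Pool.Agent.Helper35.EM Set MvPolynomial

instance Qbar_alg : Algebra.IsAlgebraic ℚ Qbar := by
  have h := algebraicClosure.isAlgebraic ℚ ℂ
  convert h
  · rfl
  · exact Subsingleton.elim _ _

variable {n m : ℕ}

theorem Relations.prime {x : Fin n → ℂ} {l : Fin m → ℂ}
    {P : Ideal (MvPolynomial (Fin n ⊕ Fin m) Qbar)} (h : Relations x l P) : P.IsPrime := by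
  have e : P = RingHom.ker (aeval (Sum.elim x l) : MvPolynomial (Fin n ⊕ Fin m) Qbar →ₐ[Qbar] ℂ) := by
    ext g
    rw [RingHom.mem_ker]
    exact (h g).symm
  rw [e]
  exact RingHom.ker_isPrime _

theorem Relations.mixed_iff {x : Fin n → ℂ} {l : Fin m → ℂ}
    {P : Ideal (MvPolynomial (Fin n ⊕ Fin m) Qbar)} (h : Relations x l P) :
    Mixed P ↔ AlgebraicIndependent ℚ x ∧ AlgebraicIndependent ℚ l := by
  have h1 : ∀ g : MvPolynomial (Fin n) Qbar, rename Sum.inl g ∈ P ↔ aeval x g = 0 := by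
    intro g
    rw [← h, aeval_rename]
    rfl
  have h2 : ∀ g : MvPolynomial (Fin m) Qbar, rename Sum.inr g ∈ P ↔ aeval l g = 0 := by
    intro g
    rw [← h, aeval_rename]
    rfl
  have h3 : ∀ {k : ℕ} (y : Fin k → ℂ), AlgebraicIndependent ℚ y ↔
      ∀ g : MvPolynomial (Fin k) Qbar, aeval y g = 0 → g = 0 := by
    intro k y
    rw [← algebraicIndependent_iff]
    exact ⟨fun h => h.extendScalars Qbar, fun h =>
      h.restrictScalars (algebraMap ℚ Qbar).injective⟩
  rw [h3, h3]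
  exact and_congr (forall_congr' fun g => by rw [h1]) (forall_congr' fun g => by rw [h2])

theorem exists_relations (P : Ideal (MvPolynomial (Fin n ⊕ Fin m) Qbar)) (hP : P.IsPrime) :
    ∃ (x : Fin n → ℂ) (l : Fin m → ℂ), Relations x l P := by
  obtain ⟨y, hy⟩ := exists_point Qbar P
  refine ⟨y ∘ Sum.inl, y ∘ Sum.inr, fun g => ?_⟩
  rw [Sum.elim_comp_inl_inr]
  exact hy g

theorem mixed_of_irreducible {f : MvPolynomial (Fin n ⊕ Fin m) Qbar}
    (h1 : ∃ i, Sum.inl i ∈ f.vars) (h2 : ∃ j, Sum.inr j ∈ f.vars) : Mixed (Ideal.span {f}) := by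
  classical
  have key : ∀ (g : MvPolynomial (Fin n ⊕ Fin m) Qbar) (k : Fin n ⊕ Fin m), k ∈ f.vars →
      k ∉ g.vars → g ∈ Ideal.span {f} → g = 0 := by
    intro g k hk hg hgf
    by_contra hne
    obtain ⟨c, rfl⟩ := Ideal.mem_span_singleton.1 hgf
    have hf0 : f ≠ 0 := fun h => hne (by rw [h, zero_mul])
    have hc0 : c ≠ 0 := fun h => hne (by rw [h, mul_zero])
    rw [mem_vars_iff_degreeOf_ne_zero] at hk
    rw [mem_vars_iff_degreeOf_ne_zero, degreeOf_mul_eq hf0 hc0] at hg
    omega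
  obtain ⟨i, hi⟩ := h1
  obtain ⟨j, hj⟩ := h2
  constructor
  · intro g hg
    have h3 : rename (Sum.inl : Fin n → Fin n ⊕ Fin m) g = 0 := by
      refine key _ (Sum.inr j) hj (fun h => ?_) hg
      obtain ⟨k, -, hk⟩ := mem_vars_rename _ _ h
      exact absurd hk (by simp)
    exact rename_injective _ Sum.inl_injective (by rw [h3, map_zero])
  · intro g hg
    have h3 : rename (Sum.inr : Fin m → Fin n ⊕ Fin m) g = 0 := by
      refine key _ (Sum.inl i) hi (fun h => ?_) hg
      obtain ⟨k, -, hk⟩ := mem_vars_rename _ _ h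
      exact absurd hk (by simp)
    exact rename_injective _ Sum.inr_injective (by rw [h3, map_zero])

end Pool.Agent.Helper35.GF
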