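import Pool.Agent.Helper35.GF.Fin

/-! Algebraic independence of logarithms in the field of a point. -/

set_option autoImplicit false

namespace Pool.Agent.Helper35.GF

open Pool.Agent.Helper35.EM Pool.Agent.Helper56.EM Pool.Agent.Helper56.SA Set Module Submodule

theorem span_cl {s : Set ℂ} {v : ℂ} (hv : v ∈ span ℚ s) : v ∈ M.closure s := by
  induction hv using Submodule.span_induction with
  | mem v hv => exact cl_self hv
  | zero => exact cl_zero _
  | add v w _ _ hv hw => exact cl_add hv hw
  | smul q v _ hv => exact cl_smul q hv

/-- rationally independent elements of the rational space of an algebraically independent set -/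
theorem indep_of_span {B : Set ℂ} (hB : B.Finite) (hI : M.Indep B) {q : ℕ} {u : Fin q → ℂ}
    (hu : LinearIndependent ℚ u) (hs : ∀ i, u i ∈ span ℚ B) : AlgebraicIndependent ℚ u := by
  obtain ⟨C, h2, h1, h3, h4⟩ := exists_linearIndepOn_id_extension (K := ℚ) (s := range u)
    (t := range u ∪ B) ((linearIndepOn_id_range_iff hu.injective).2 hu) subset_union_left
  have hCfin : C.Finite := ((finite_range u).union hB).subset h2
  have hCs : span ℚ C ≤ span ℚ B := by
    rw [span_le]
    intro v hv
    rcases h2 hv with ⟨i, rfl⟩ | hv
    · exact hs i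
    · exact subset_span hv
  have hcard : C.encard ≤ B.encard := by
    have hf : FiniteDimensional ℚ (span ℚ B) := FiniteDimensional.span_of_finite ℚ hB
    have := hCfin.fintype
    have := hB.fintype
    have e1 : finrank ℚ (span ℚ C) = C.toFinset.card := finrank_span_set_eq_card h4
    have e2 : finrank ℚ (span ℚ B) ≤ B.toFinset.card := finrank_span_le_card B
    have e3 := Submodule.finrank_mono hCs
    rw [encard_eq_coe_toFinset_card, encard_eq_coe_toFinset_card]
    exact_mod_cast e1 ▸ e3.trans e2
  have hCI : M.Indep C := by
    rw [Matroid.indep_iff_eRk_eq_encard_of_finite hCfin]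
    refine le_antisymm (M.eRk_le_encard _) (hcard.trans ?_)
    rw [← hI.eRk_eq_encard, ← M.eRk_closure_eq C]
    apply M.eRk_mono
    intro v hv
    exact span_cl (h3 (Or.inr hv))
  exact (algebraicIndependent_subtype_range hu.injective).1 (hCI.subset h1)

theorem log_of_generated {n m : ℕ} {F : ExpField} {α x : Fin n → ℂ} {l b : Fin m → ℂ}
    (hαi : LinearIndependent ℚ α) (hF : Point F α b x l) (hl : AlgebraicIndependent ℚ l)
    (hG : Generated F α x l) : LogIndependence F := by
  intro q u hu hui
  obtain ⟨C, h2, h1, h3, h4⟩ := exists_linearIndepOn_id_extension (K := ℚ) (s := range l)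
    (t := range l ∪ range u) ((linearIndepOn_id_range_iff hF.indep.injective).2 hF.indep)
    subset_union_left
  have hCfin : C.Finite := ((finite_range l).union (finite_range u)).subset h2
  have hDfin : (C \ range l).Finite := hCfin.sdiff
  have := hDfin.fintype
  let e := (Fintype.equivFin (C \ range l : Set ℂ)).symm
  let u' : Fin (Fintype.card (C \ range l : Set ℂ)) → ℂ := fun j => (e j : ℂ)
  have hu'r : range u' = C \ range l := by
    have : u' = ((↑) : (C \ range l : Set ℂ) → ℂ) ∘ e := rfl
    rw [this, range_comp, e.range_eq_univ, image_univ, Subtype.range_coe]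
  have hrange : range (Fin.append l u') = C := by
    have h5 : range (Fin.append l u') = range l ∪ range u' := by
      ext v
      constructor
      · rintro ⟨k, rfl⟩
        refine Fin.addCases (fun i => ?_) (fun j => ?_) k
        · rw [Fin.append_left]; exact Or.inl ⟨i, rfl⟩
        · rw [Fin.append_right]; exact Or.inr ⟨j, rfl⟩
      · rintro (⟨i, rfl⟩ | ⟨j, rfl⟩)
        · exact ⟨Fin.castAdd _ i, Fin.append_left _ _ _⟩
        · exact ⟨Fin.natAdd _ j, Fin.append_right _ _ _⟩
    rw [h5, hu'r]
    exact union_sdiff_cancel h1
  have hinj : Function.Injective (Fin.append l u') := by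
    rw [Fin.append_injective_iff]
    refine ⟨hF.indep.injective, Subtype.val_injective.comp e.injective, fun i j h => ?_⟩
    have h5 : u' j ∈ C \ range l := hu'r ▸ mem_range_self j
    exact h5.2 ⟨i, h⟩
  have hlu : LinearIndependent ℚ (Fin.append l u') := by
    rw [← linearIndepOn_id_range_iff hinj, hrange]
    exact h4
  have hu'l : ∀ j, IsLog F (u' j) := by
    intro j
    have h5 : u' j ∈ C \ range l := hu'r ▸ mem_range_self j
    rcases h2 h5.1 with h6 | ⟨i, h6⟩
    · exact absurd h6 h5.2
    · rw [← h6]; exact hu i
  have hα0 : LinearIndependent ℚ (Fin.append α (Fin.elim0 : Fin 0 → ℂ)) := by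
    rw [Fin.append_elim0]
    exact hαi
  have h5 := hG 0 _ Fin.elim0 u' (fun i => i.elim0) hu'l hα0 hlu
  have h6 : AlgebraicIndependent (IntermediateField.adjoin ℚ (range x ∪ range l)) u' := by
    have := h5.comp (Fin.natAdd 0) (Fin.natAdd_injective _ _)
    have e2 : Fin.append (fun i => F.E ((Fin.elim0 : Fin 0 → ℂ) i)) u' ∘ Fin.natAdd 0 = u' := by
      funext j
      exact Fin.append_right _ _ _
    rwa [e2] at this
  have hle : Algebra.adjoin ℚ (range l) ≤
      (IntermediateField.adjoin ℚ (range x ∪ range l)).toSubalgebra := by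
    refine Algebra.adjoin_le ?_
    intro v hv
    exact IntermediateField.subset_adjoin ℚ _ (Or.inr hv)
  let _ : Algebra (Algebra.adjoin ℚ (range l)) (IntermediateField.adjoin ℚ (range x ∪ range l)) :=
    (Subalgebra.inclusion hle).toAlgebra
  have : IsScalarTower (Algebra.adjoin ℚ (range l))
    (IntermediateField.adjoin ℚ (range x ∪ range l)) ℂ := .of_algebraMap_eq fun _ => rfl
  have h7 : AlgebraicIndependent (Algebra.adjoin ℚ (range l)) u' :=
    AlgebraicIndependent.restrictScalars (Subalgebra.inclusion_injective hle) h6
  have h8 := AlgebraicIndependent.sumElim_iff.2 ⟨hl, h7⟩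
  have h9 : M.Indep (range (Sum.elim u' l)) :=
    (algebraicIndependent_subtype_range h8.injective).2 h8
  have h10 : range (Sum.elim u' l) = C := by
    rw [Sum.elim_range, hu'r]
    exact sdiff_union_of_subset h1
  rw [h10] at h9
  exact indep_of_span hCfin h9 hui fun i => h3 (Or.inr ⟨i, rfl⟩)

/-- algebraic independence implies independence of `1, l` over the algebraic numbers -/
theorem indepWithOne_of {m : ℕ} {l : Fin m → ℂ} (hl : AlgebraicIndependent ℚ l) :
    IndepWithOne l := by
  classical
  intro c₀ c h0 hc hs
  have hI : M.Indep (range l) := (algebraicIndependent_subtype_range hl.injective).2 hl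
  have h1 : ∀ j, c j = 0 := by
    intro j
    by_contra hj
    apply hI.notMem_closure_sdiff_of_mem (mem_range_self j)
    have e : l j = -(c₀ + ∑ i, (if i = j then 0 else c i * l i)) / c j := by
      have e1 : ∑ i, c i * l i = c j * l j + ∑ i, (if i = j then 0 else c i * l i) := by
        have e2 : ∀ i, c i * l i = (if i = j then c j * l j else 0) +
            (if i = j then 0 else c i * l i) := by
          intro i
          by_cases h : i = j
          · rw [if_pos h, if_pos h, h, add_zero]
          · rw [if_neg h, if_neg h, zero_add]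
        rw [Finset.sum_congr rfl fun i _ => e2 i, Finset.sum_add_distrib,
          Finset.sum_ite_eq' Finset.univ j, if_pos (Finset.mem_univ j)]
      rw [e1] at hs
      field_simp
      linear_combination hs
    suffices key : -(c₀ + ∑ i, (if i = j then 0 else c i * l i)) / c j ∈
        M.closure (range l \ {l j}) by
      rwa [← e] at key
    refine cl_div (cl_neg (cl_add (cl_empty_le (mem_cl_empty.2 h0)) ?_))
      (cl_empty_le (mem_cl_empty.2 (hc j)))
    refine cl_sum _ _ fun i _ => ?_
    by_cases h : i = j
    · rw [if_pos h]; exact cl_zero _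
    · rw [if_neg h]
      refine cl_mul (cl_empty_le (mem_cl_empty.2 (hc i))) (cl_self ⟨⟨i, rfl⟩, fun he => h ?_⟩)
      exact hl.injective he
  refine ⟨?_, h1⟩
  simpa [h1] using hs

end Pool.Agent.Helper35.GF
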