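import Pool.Agent.Helper35.GF.Gen
import Pool.Agent.Helper56.SA.Mk

/-! Existence of a field with a prescribed point. -/

set_option autoImplicit false

namespace Pool.Agent.Helper35.GF

open Pool.Agent.Helper35.EM Pool.Agent.Helper56.EM Pool.Agent.Helper56.SA Module Submodule Set

variable {n m m' : ℕ}

theorem IndepWithOne.lin {l : Fin m → ℂ} (h : IndepWithOne l) : LinearIndependent ℚ l := by
  rw [Fintype.linearIndependent_iff]
  intro g hg j
  have h1 := h 0 (fun j => (g j : ℂ)) isAlgebraic_zero
    (fun j => mem_cl_empty.1 (cl_ratCast _ _)) (by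
      rw [zero_add, ← hg]
      exact Finset.sum_congr rfl fun j _ => by rw [Rat.smul_def])
  exact_mod_cast h1.2 j

theorem exists_aux (hMU : S_Mult) {α z x : Fin n → ℂ} {l b : Fin m → ℂ} {l' b' : Fin m' → ℂ}
    (hD : Data α z x l b) (hD' : Data α z x l' b') (hle : PB α z l b ≤ PB α z l' b')
    (hineq : Ineq (PB α z l b) (PB α z l' b'))
    (hπ : 2 * (Real.pi : ℂ) * Complex.I ∈ span ℚ (range b')) (hnb : SixAt l → Nb 2 (WL l')) :
    ∃ F : ExpField, LindemannWeierstrass F ∧ Baker F ∧ (SixAt l → StrongSixExponentials F) ∧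
      Point F α b x l ∧ Generated F α x l := by
  obtain ⟨t, N, ht, hA⟩ := Pool.Agent.Helper92.GF.fs (range x ∪ range l')
    ((finite_range x).union (finite_range l'))
  have hst : St (PB α z l' b') (t '' Iio N) := hD'.st hMU
    (fun i => hA (Or.inl ⟨i, rfl⟩)) (fun j => hA (Or.inr ⟨j, rfl⟩))
  obtain ⟨c, hc⟩ := (Submodule.mem_span_range_iff_exists_fun ℚ).1 hπ
  have hτ : (∑ j, c j • l' j, 2 * (Real.pi : ℂ) * Complex.I) ∈ PB α z l' b' := by
    have h1 : ∑ j, c j • (l' j, b' j) ∈ PB α z l' b' :=
      Submodule.sum_mem _ fun j _ => Submodule.smul_mem _ _ (inr_mem α z l' b' j)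
    have e : ∑ j, c j • (l' j, b' j) = (∑ j, c j • l' j, 2 * (Real.pi : ℂ) * Complex.I) := by
      rw [← hc]
      refine Prod.ext ?_ ?_
      · simp only [Prod.fst_sum, Prod.smul_fst]
      · simp only [Prod.snd_sum, Prod.smul_snd]
    rwa [e] at h1
  obtain ⟨K, lam, F, hFK, hFE, hT, hKk, hLW, hBk, hSix⟩ := (hD'.gb hMU).field ht hst _ hτ
  refine ⟨F, hLW, hBk, fun h => hSix (hnb h), ?_, generated_of hD hle hineq hFK hFE hT hKk hBk⟩
  refine ⟨fun i => ?_, fun j => ?_, fun j => ?_, hD.li.lin⟩
  · obtain ⟨v, h1, h2⟩ := hT.mem _ (hle (inl_mem α z l b i))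
    have h1' : (v : ℂ) = α i := h1
    have h2' : lam v = z i := h2
    rw [← h1', hFE, h2', hD.zx]
  · obtain ⟨v, h1, h2⟩ := hT.mem _ (hle (inr_mem α z l b j))
    have h1' : (v : ℂ) = l j := h1
    rw [← h1', hFK]; exact v.2
  · obtain ⟨v, h1, h2⟩ := hT.mem _ (hle (inr_mem α z l b j))
    have h1' : (v : ℂ) = l j := h1
    have h2' : lam v = b j := h2
    rw [← h1', hFE, h2']

theorem exists_field (hMU : S_Mult) {α z x : Fin n → ℂ} {l b : Fin m → ℂ}
    (hD : Data α z x l b) :
    ∃ F : ExpField, LindemannWeierstrass F ∧ Baker F ∧ (SixAt l → StrongSixExponentials F) ∧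
      Point F α b x l ∧ Generated F α x l := by
  by_cases hπ : 2 * (Real.pi : ℂ) * Complex.I ∈ span ℚ (range b)
  · exact exists_aux hMU hD hD le_rfl (Ineq.refl _) hπ nb_of_six
  · -- a generic generator of the kernel
    have hfin : (range x ∪ range l).Finite := (finite_range x).union (finite_range l)
    obtain ⟨τ, hτ⟩ : ∃ τ : ℂ, τ ∉ M.closure (range x ∪ range l) := by
      by_contra hcon
      push Not at hcon
      have h1 := countable_closure hfin.countable
      rw [eq_univ_of_forall hcon] at h1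
      exact not_countable_complex h1
    set F0 : Set ℂ := range x ∪ range l with hF0
    set κ : ℂ := 2 * (Real.pi : ℂ) * Complex.I with hκ
    have hκ1 : Complex.exp κ ∈ M.closure ∅ := cl_exp_two_pi_I _
    set l' : Fin (m + 1) → ℂ := Fin.cons τ l with hl'
    set b' : Fin (m + 1) → ℂ := Fin.cons κ b with hb'
    have hlcl : ∀ j, l j ∈ M.closure F0 := fun j => cl_self (Or.inr ⟨j, rfl⟩)
    have hD' : Data α z x l' b' := by
      refine ⟨hD.αa, hD.αi, hD.zx, hD.xi, ?_, ?_, ?_⟩
      · intro j
        refine Fin.cases ?_ (fun j => ?_) j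
        · exact hκ1
        · exact hD.ba j
      · rw [hb', linearIndependent_finCons]
        exact ⟨hD.bi, hπ⟩
      · intro c₀ c h0 hc hs
        rw [Fin.sum_univ_succ] at hs
        have hs' : (c₀ + ∑ j : Fin m, c j.succ * l j) + c 0 * τ = 0 := by
          have e1 : l' 0 = τ := rfl
          have e2 : ∀ j : Fin m, l' j.succ = l j := fun j => rfl
          simp only [e1, e2] at hs
          linear_combination hs
        have h1 := lin2 hτ (u := c₀ + ∑ j : Fin m, c j.succ * l j) (v := c 0) (u' := 0) (v' := 0)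
          (cl_add (cl_empty_le (mem_cl_empty.2 h0))
            (cl_sum _ _ fun j _ => cl_mul (cl_empty_le (mem_cl_empty.2 (hc _))) (hlcl j)))
          (cl_empty_le (mem_cl_empty.2 (hc 0))) (cl_zero _) (cl_zero _)
          (by rw [hs']; ring)
        obtain ⟨h2, h3⟩ := hD.li c₀ (fun j => c j.succ) h0 (fun j => hc _) h1.1
        refine ⟨h2, fun j => ?_⟩
        refine Fin.cases ?_ (fun j => ?_) j
        · exact h1.2
        · exact h3 j
    have hst : St (PB α z l b) F0 := hD.st hMU (fun i => cl_self (Or.inl ⟨i, rfl⟩)) hlcl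
    have hxP : ¬ ∃ u, (u, κ) ∈ PB α z l b := by
      rintro ⟨u, hu⟩
      obtain ⟨a, c, -, -, h2⟩ := mem_PB hu
      have ha := hD.a0 hMU (q := (u, κ)) hκ1 h2
      apply hπ
      rw [ha] at h2
      simp only [Pi.zero_apply, Rat.cast_zero, zero_mul, Finset.sum_const_zero, zero_add] at h2
      rw [h2]
      refine Submodule.sum_mem _ fun j _ => ?_
      rw [← Rat.smul_def]
      exact Submodule.smul_mem _ _ (subset_span ⟨j, rfl⟩)
    have hsub : F0 ⊆ insert τ F0 := subset_insert _ _
    obtain ⟨-, hI⟩ := backG hsub hst (g := τ) (w := κ) (cl_self (mem_insert _ _)) hτ hxP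
      (cl_empty_le hκ1)
    have hPB : PB α z l b ⊔ span ℚ {(τ, κ)} = PB α z l' b' := by
      apply le_antisymm
      · refine sup_le ?_ ?_
        · rw [PB, span_le]
          rintro _ ⟨i | j, rfl⟩
          · exact inl_mem α z l' b' i
          · exact inr_mem α z l' b' j.succ
        · rw [span_le]
          rintro _ rfl
          exact inr_mem α z l' b' 0
      · rw [PB, span_le]
        rintro _ ⟨i | j, rfl⟩
        · exact Submodule.mem_sup_left (inl_mem α z l b i)
        · refine Fin.cases ?_ (fun j => ?_) j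
          · exact Submodule.mem_sup_right (Submodule.mem_span_singleton_self _)
          · exact Submodule.mem_sup_left (inr_mem α z l b j)
    rw [hPB] at hI
    refine exists_aux hMU hD hD' (hPB ▸ le_sup_left) hI
      (subset_span ⟨0, rfl⟩) fun h6 => ?_
    have h1 := nb_of_six h6
    have hWcl : ∀ v ∈ WL l, v ∈ M.closure F0 := by
      intro v hv
      induction hv using Submodule.span_induction with
      | mem v hv =>
        rcases hv with rfl | ⟨j, rfl⟩
        · exact cl_one _
        · exact hlcl j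
      | zero => exact cl_zero _
      | add v w _ _ hv hw => exact cl_add hv hw
      | smul q v _ hv => exact smul_cl q hv
    have hls : lc ([] : List (⊤ : IntermediateField ℚ ℂ)) = ∅ := by simp [lc, ls]
    obtain ⟨h2, -⟩ := h1.gen hWcl ([⟨τ, IntermediateField.mem_top⟩] : List (⊤ : IntermediateField ℚ ℂ))
      ⟨by rw [hls, union_empty]; exact hτ, trivial⟩
    refine h2.mono ?_
    rw [WL, span_le]
    rintro _ (rfl | ⟨j, rfl⟩)
    · exact Submodule.mem_sup_left (subset_span (mem_insert _ _))
    · refine Fin.cases ?_ (fun j => ?_) j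
      · refine Submodule.mem_sup_right (subset_span ?_)
        exact ⟨⟨τ, IntermediateField.mem_top⟩, by simp [ls], rfl⟩
      · exact Submodule.mem_sup_left (subset_span (mem_insert_of_mem _ ⟨j, rfl⟩))

end Pool.Agent.Helper35.GF
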