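import Pool.Agent.Helper35.GF.Log

/-! Algebraically independent numbers satisfy the strong six exponentials theorem. -/

set_option autoImplicit false

namespace Pool.Agent.Helper35.GF

open Pool.Agent.Helper35.EM Pool.Agent.Helper56.EM Pool.Agent.Helper56.SA Module Submodule Set

theorem six_bound {W : Submodule kk ℂ} (hN : Nb 2 W) {x : Fin 2 → ℂ} {y : Fin 3 → ℂ}
    (hx : Indep x) (hy : Indep y) (hzW : ∀ i j, x i * y j ∈ W) : False := by
  have hx0 : x 0 ≠ 0 := by
    intro h1
    have := hx ![1, 0] (by
      intro i; fin_cases i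
      · exact isAlgebraic_one
      · exact isAlgebraic_zero) (by rw [Fin.sum_univ_two]; simp [h1]) 0
    simp at this
  have hθ : x 1 / x 0 ∉ kk := by
    intro h1
    have h2 := mem_cl_empty.1 (kk_mem.1 h1)
    have := hx ![-(x 1 / x 0), 1] (by
      intro i; fin_cases i
      · exact h2.neg
      · exact isAlgebraic_one) (by
        rw [Fin.sum_univ_two]
        simp only [Matrix.cons_val_zero, Matrix.cons_val_one]
        field_simp
        ring) 1
    simp at this
  have hb := hN.bd _ hθ
  have hf := finNN (θ := x 1 / x 0) hN.fin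
  have hli : LinearIndependent kk (fun j : Fin 3 =>
      (⟨x 0 * y j, mem_NN.2 ⟨hzW 0 j, by
        have : x 1 / x 0 * (x 0 * y j) = x 1 * y j := by field_simp
        rw [this]; exact hzW 1 j⟩⟩ : NN (x 1 / x 0) W)) := by
    rw [Fintype.linearIndependent_iff]
    intro g hg
    have h1 : ∑ j, (g j : ℂ) * (x 0 * y j) = 0 := by
      have := congrArg Subtype.val hg
      simpa [Algebra.smul_def] using this
    have h2 : x 0 * ∑ j, (g j : ℂ) * y j = 0 := by
      rw [← h1, Finset.mul_sum]
      exact Finset.sum_congr rfl fun j _ => by ring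
    have h3 := (mul_eq_zero.1 h2).resolve_left hx0
    have h4 := hy (fun j => (g j : ℂ)) (fun j => mem_cl_empty.1 (kk_mem.1 (g j).2)) h3
    intro j
    exact Subtype.ext (h4 j)
  have h3 := hli.fintype_card_le_finrank
  rw [Fintype.card_fin] at h3
  omega

theorem gn_of_indep {K : IntermediateField ℚ ℂ} (w : List K) (hnd : w.Nodup)
    (hI : M.Indep (lc w)) : Gn ∅ w := by
  induction w with
  | nil => trivial
  | cons x w ih =>
    rw [List.nodup_cons] at hnd
    rw [lc_cons] at hI
    refine ⟨?_, ih hnd.2 (hI.subset (subset_insert _ _))⟩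
    have h1 := hI.notMem_closure_sdiff_of_mem (mem_insert (x : ℂ) (lc w))
    intro h2
    apply h1
    refine cl_mono ?_ h2
    rw [empty_union]
    intro v hv
    refine ⟨mem_insert_of_mem _ hv, ?_⟩
    rintro rfl
    obtain ⟨x', hx', he⟩ := hv
    have : x' = x := Subtype.ext he
    exact hnd.1 (this ▸ hx')

theorem sixAt_of {m : ℕ} {l : Fin m → ℂ} (hl : AlgebraicIndependent ℚ l) : SixAt l := by
  let w : List (⊤ : IntermediateField ℚ ℂ) := List.ofFn fun j => ⟨l j, IntermediateField.mem_top⟩
  have hlc : lc w = range l := by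
    ext v
    constructor
    · rintro ⟨x, hx, rfl⟩
      have hx' : x ∈ w := hx
      obtain ⟨j, rfl⟩ := (List.mem_ofFn' _ _).1 hx'
      exact ⟨j, rfl⟩
    · rintro ⟨j, rfl⟩
      exact ⟨⟨l j, IntermediateField.mem_top⟩, (List.mem_ofFn' _ _).2 ⟨j, rfl⟩, rfl⟩
  have hI : M.Indep (range l) := (algebraicIndependent_subtype_range hl.injective).2 hl
  have hg : Gn ∅ w := gn_of_indep w (List.nodup_ofFn.2 fun i j h =>
    hl.injective (congrArg Subtype.val h)) (hlc ▸ hI)
  have h1 : Nb 2 (span kk {(1 : ℂ)}) := by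
    have hf : FiniteDimensional kk (span kk {(1 : ℂ)}) :=
      FiniteDimensional.span_of_finite kk (finite_singleton _)
    refine Nb.of_finrank hf ?_
    rw [finrank_span_singleton one_ne_zero]
    norm_num
  obtain ⟨h2, -⟩ := h1.gen (s := ∅) (fun x hx => by
    obtain ⟨c, rfl⟩ := Submodule.mem_span_singleton.1 hx
    exact smul_cl c (cl_one _)) w hg
  rw [hlc] at h2
  have h3 : WL l = span kk {(1 : ℂ)} ⊔ span kk (range l) := by
    rw [WL, span_insert]
  rw [← h3] at h2
  intro x y hx hy
  by_contra hcon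
  push Not at hcon
  exact six_bound h2 hx hy fun i j => mem_WL.2 (hcon i j)

end Pool.Agent.Helper35.GF
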